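import Pool.Agent.W81.RD.TwoG

/-!
Primes of the form `m³ + k` for almost all `k` in every interval of length at least
`x² (log x)^B`, where `|m| ≤ x`.
-/

set_option autoImplicit false

namespace Pool.Agent.Results.MP_4d57ea_nt.ShortIntervalShifts

open Finset Filter Polynomial

/-- the number of integers `m` with `|m| ≤ y` and `m³ + k` prime -/
noncomputable def primeCount (k : ℤ) (y : ℕ) : ℝ :=
  (((Icc (-(y : ℤ)) y).filter (fun m : ℤ => Nat.Prime (Int.toNat (m ^ 3 + k)))).card : ℝ)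

/-- the sum of `1 / log (m³ + k)` over the integers `m` with `|m| ≤ y` and `m³ + k ≥ 2` -/
noncomputable def logSum (k : ℤ) (y : ℕ) : ℝ :=
  ∑ m ∈ (Icc (-(y : ℤ)) y).filter (fun m : ℤ => 2 ≤ m ^ 3 + k), 1 / Real.log ((m ^ 3 + k : ℤ) : ℝ)

/-- the number of residue classes `r` modulo `p` with `r³ + k ≡ 0` -/
noncomputable def roots (k : ℤ) (p : ℕ) : ℕ :=
  ((range p).filter (fun r : ℕ => (p : ℤ) ∣ (r : ℤ) ^ 3 + k)).card

/-- the Euler product `∏_{p ≤ z} (1 - roots(p)/p) / (1 - 1/p)` -/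
noncomputable def eulerProd (z : ℕ) (k : ℤ) : ℝ :=
  ∏ p ∈ (Icc 1 z).filter Nat.Prime, (1 - (roots k p : ℝ) / p) / (1 - 1 / (p : ℝ))

open Classical in
/-- **Primes `m³ + k`, almost all `k` of short intervals.** For all `C, U`, all `E` large in terms
of these, there are `B, X₀` such that for all `x ≥ X₀`, with `z = ⌊(log x)^E⌋`, and every interval
`(k₀, k₀ + A]` of integers with `|k₀|, A ≤ x³ (log x)^C` and length `A ≥ x² (log x)^B`, all integers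
`k` of the interval but at most `A/(log x)^U` satisfy: `𝔖_z(k) ≥ 1/log x` and, uniformly for all
`y ≤ x`, the number of integers `|m| ≤ y` with `m³ + k` prime equals
`𝔖_z(k) (∑_{|m| ≤ y} 1/log(m³ + k) + O*(x/(log x)^U))`. -/
theorem result (C U : ℕ) : ∃ E' : ℕ, ∀ E : ℕ, E' ≤ E → ∃ B X0 : ℕ, ∀ x : ℕ, X0 ≤ x →
    ∀ (k0 : ℤ) (A : ℕ), |(k0 : ℝ)| ≤ (x : ℝ) ^ 3 * Real.log x ^ C →
    (x : ℝ) ^ 2 * Real.log x ^ B ≤ A → (A : ℝ) ≤ (x : ℝ) ^ 3 * Real.log x ^ C →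
    ∃ Bad : Finset ℤ, (Bad.card : ℝ) ≤ A / Real.log x ^ U ∧
      ∀ k : ℤ, k0 < k → k ≤ k0 + A → k ∉ Bad →
        1 / Real.log x ≤ eulerProd ⌊Real.log x ^ E⌋₊ k ∧
        ∀ y : ℕ, y ≤ x →
          |primeCount k y - eulerProd ⌊Real.log x ^ E⌋₊ k * logSum k y| ≤
            eulerProd ⌊Real.log x ^ E⌋₊ k * (x / Real.log x ^ U) := by
  obtain ⟨E', h⟩ := Pool.Agent.W81.RD.two_sided 3 (by norm_num) (by decide) C U
  refine ⟨E' + 1, fun E hE => ?_⟩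
  obtain ⟨B, hB⟩ := h E (by omega)
  obtain ⟨X0, hX0⟩ := eventually_atTop.mp (hB.and (Pool.Agent.H442R2.EHI.evt_log_ge 4))
  refine ⟨B, X0, fun x hx k0 A hk0 hA1 hA2 => ?_⟩
  obtain ⟨hx1, hL4⟩ := hX0 x hx
  have hL1 : 1 ≤ Real.log x := by linarith
  obtain ⟨Bad, hBad, hgood⟩ := hx1 k0 A ⌊Real.log x ^ E⌋₊ (by
      have h1 : Real.log x ^ E < ⌊Real.log x ^ E⌋₊ + 1 := Nat.lt_floor_add_one _
      have h2 : Real.log x ^ (E' + 1) ≤ Real.log x ^ E := pow_le_pow_right₀ hL1 hE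
      have h3 : 1 ≤ Real.log x ^ E' := one_le_pow₀ hL1
      rw [pow_succ] at h2
      nlinarith) (Nat.floor_le (by positivity)) hk0 hA1 hA2
  refine ⟨Bad, hBad, fun k hk1 hk2 hkB => ?_⟩
  obtain ⟨h1, h2⟩ := hgood k hk1 hk2 hkB
  have e1 : Pool.Agent.H300R2.BH.SS ⌊Real.log x ^ E⌋₊ (Polynomial.C 1 * X ^ 3 + Polynomial.C k) =
      eulerProd ⌊Real.log x ^ E⌋₊ k := by
    unfold Pool.Agent.H300R2.BH.SS eulerProd Pool.Agent.H300R2.BH.rho roots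
    refine prod_congr rfl fun p _ => ?_
    simp_rw [Pool.Agent.W81.RD.eval_P, one_mul]
  rw [e1] at h1 h2
  exact ⟨h1, h2⟩

end Pool.Agent.Results.MP_4d57ea_nt.ShortIntervalShifts
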