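import Pool.Agent.W218.PG.MainI

set_option autoImplicit false

/-!
Primes `m^3 + k` with `|m|` as small as a power of `log k`, for a positive proportion of the `k`, and for `r` values of
`k` at the same time, with the constant predicted by Hardy and Littlewood (Bateman and Horn).
-/

namespace Pool.Agent.Results.MP_4d57ea_nt.SmallCubesTuples

open Finset Filter Topology

/-- the number of `1 ≤ m ≤ x` such that all `(s_i m)^3 + k_i` are prime -/
def P {r : ℕ} (s : Fin r → ℤ) (k : Fin r → ℕ) (x : ℕ) : ℕ :=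
  ((Icc 1 x).filter (fun m : ℕ => ∀ i, ((s i * (m : ℤ)) ^ 3 + k i).toNat.Prime)).card

/-- the number of residues `m` mod `p` such that `p` divides `(s_i m)^3 + k_i` for some `i` -/
def nu {r : ℕ} (s : Fin r → ℤ) (k : Fin r → ℕ) (p : ℕ) : ℕ :=
  ((range p).filter (fun m : ℕ => ∃ i, (p : ℤ) ∣ (s i * (m : ℤ)) ^ 3 + k i)).card

/-- the product over the primes `p ≤ z` of `(1 - 1/p)^(-r) (1 - nu(p)/p)` -/
noncomputable def S {r : ℕ} (s : Fin r → ℤ) (k : Fin r → ℕ) (z : ℕ) : ℝ :=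
  ∏ p ∈ (range (z + 1)).filter Nat.Prime, (((1 - 1 / (p : ℝ)) ^ r)⁻¹ * (1 - (nu s k p : ℝ) / p))

open Polynomial in
/-- the polynomial `s X^3` -/
noncomputable def F (s : ℤ) : ℤ[X] := C s * X ^ 3

lemma F_eval {s : ℤ} (hs : s = 1 ∨ s = -1) (t : ℤ) : (F s).eval t = (s * t) ^ 3 := by
  unfold F
  simp only [Polynomial.eval_mul, Polynomial.eval_C, Polynomial.eval_pow, Polynomial.eval_X]
  rcases hs with h | h <;> subst h <;> ring

lemma F_deg {s : ℤ} (hs : s = 1 ∨ s = -1) : (F s).natDegree = 3 := by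
  unfold F
  apply Polynomial.natDegree_C_mul_X_pow
  rcases hs with h | h <;> rw [h] <;> norm_num

open Classical in
theorem result (r : ℕ) (hr : 1 ≤ r) (s : Fin r → ℤ) (hs : ∀ i, s i = 1 ∨ s i = -1) (c : ℝ) (hc : 0 < c) (θ : ℝ)
    (hθ : θ < 1) : ∃ κ : ℝ, 0 < κ ∧ ∀ z : ℕ, ∃ K₀ : ℕ, ∀ K : ℕ, K₀ ≤ K →
      ∀ x : ℕ, c * Real.log K ^ r ≤ x → (x : ℝ) ^ 3 ≤ κ * K →
      κ * K ^ r ≤ (((Fintype.piFinset (fun _ : Fin r => Ioc K (2 * K))).filter (fun k =>
        θ * S s k z * (x / Real.log K ^ r) ≤ P s k x ∧ κ * (x / Real.log K ^ r) ≤ P s k x)).card : ℝ) := by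
  obtain ⟨κ, hκ, h⟩ := Pool.Agent.W218.PG.mainI r hr (fun i => F (s i))
    (fun i => by rw [F_deg (hs i)]; norm_num) c hc θ hθ
  refine ⟨min κ 1, by positivity, fun z => ?_⟩
  obtain ⟨x0, h⟩ := h z
  refine ⟨⌈Real.exp (1 + (x0 + 1 : ℕ) / c)⌉₊, fun A hA x hcx hxA => ?_⟩
  have hA1 : Real.exp (1 + (x0 + 1 : ℕ) / c) ≤ A := (Nat.le_ceil _).trans (by exact_mod_cast hA)
  have hA0 : (0 : ℝ) < A := lt_of_lt_of_le (Real.exp_pos _) hA1
  have hlA : 1 + ((x0 + 1 : ℕ) : ℝ) / c ≤ Real.log A := by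
    rwa [Real.le_log_iff_exp_le hA0]
  have hlA1 : 1 ≤ Real.log A := by
    have : (0 : ℝ) ≤ ((x0 + 1 : ℕ) : ℝ) / c := by positivity
    linarith
  have hx1 : x0 + 1 ≤ x := by
    have h1 : ((x0 + 1 : ℕ) : ℝ) / c ≤ Real.log A ^ r := by
      calc ((x0 + 1 : ℕ) : ℝ) / c ≤ Real.log A := by linarith
        _ ≤ Real.log A ^ r := le_self_pow₀ hlA1 (by omega)
    rw [div_le_iff₀ hc] at h1
    have : ((x0 + 1 : ℕ) : ℝ) ≤ x := by linarith
    exact_mod_cast this
  have hxr : (1 : ℝ) ≤ x := by exact_mod_cast (by omega : 1 ≤ x)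
  have hxA' : (x : ℝ) ^ 3 ≤ A := by
    refine hxA.trans ?_
    calc min κ 1 * (A : ℝ) ≤ 1 * A := mul_le_mul_of_nonneg_right (min_le_right _ _) hA0.le
      _ = A := one_mul _
  have hxA1 : x ≤ A := by
    have : (x : ℝ) ≤ A := (le_self_pow₀ hxr (by norm_num)).trans hxA'
    exact_mod_cast this
  have h1 := h x (by omega) A hxA1 hcx (by
    intro i t ht1 ht2
    rw [F_eval (hs i)]
    have h3 : |(s i : ℝ)| = 1 := by
      rcases hs i with h | h <;> rw [h] <;> norm_num
    push_cast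
    rw [abs_pow, abs_mul, h3, one_mul, Nat.abs_cast]
    have h4 : (t : ℝ) ≤ x := by exact_mod_cast ht2
    calc (t : ℝ) ^ 3 ≤ (x : ℝ) ^ 3 := by gcongr
      _ ≤ min κ 1 * A := hxA
      _ ≤ κ * A := mul_le_mul_of_nonneg_right (min_le_left _ _) hA0.le)
  refine le_trans (mul_le_mul_of_nonneg_right (min_le_left _ _) (by positivity)) (h1.trans ?_)
  have hsub : (Fintype.piFinset (fun _ : Fin r => Ioc A (2 * A))).filter (fun b =>
      θ * Pool.Agent.W218.PG.EI (fun i => F (s i)) b z * (x / Real.log A ^ r) ≤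
        Pool.Agent.W218.PG.cntI (fun i => F (s i)) b x ∧
      κ * (x / Real.log A ^ r) ≤ Pool.Agent.W218.PG.cntI (fun i => F (s i)) b x) ⊆
      (Fintype.piFinset (fun _ : Fin r => Ioc A (2 * A))).filter (fun k =>
        θ * S s k z * (x / Real.log A ^ r) ≤ P s k x ∧ min κ 1 * (x / Real.log A ^ r) ≤ P s k x) := by
    intro b hb
    rw [mem_filter] at hb ⊢
    obtain ⟨hbI, h2, h3⟩ := hb
    have hcnt : (Pool.Agent.W218.PG.cntI (fun i => F (s i)) b x : ℝ) ≤ P s b x := by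
      have : Pool.Agent.W218.PG.cntI (fun i => F (s i)) b x ≤ P s b x := by
        unfold Pool.Agent.W218.PG.cntI P
        apply card_le_card
        intro t ht
        rw [mem_filter] at ht ⊢
        refine ⟨ht.1, fun i => ?_⟩
        have := ht.2 i
        rw [F_eval (hs i)] at this
        exact this
      exact_mod_cast this
    have hnu : ∀ p : ℕ, Pool.Agent.W218.PG.wI
        (Pool.Agent.W218.PG.Vf (fun i => F (s i)) b) p = nu s b p := by
      intro p
      unfold Pool.Agent.W218.PG.wI nu Pool.Agent.W218.PG.Vf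
      congr 1
      ext r
      simp only [mem_filter]
      apply and_congr_right
      intro _
      apply exists_congr
      intro i
      rw [F_eval (hs i)]
    have hE : Pool.Agent.W218.PG.EI (fun i => F (s i)) b z = S s b z := by
      unfold Pool.Agent.W218.PG.EI S Pool.Agent.W218.PF.PS
      apply prod_congr rfl
      intro p _
      rw [hnu p]
    rw [hE] at h2
    refine ⟨hbI, h2.trans hcnt, le_trans ?_ (h3.trans hcnt)⟩
    exact mul_le_mul_of_nonneg_right (min_le_left _ _) (by positivity)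
  exact_mod_cast card_le_card hsub

end Pool.Agent.Results.MP_4d57ea_nt.SmallCubesTuples
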